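import Mathlib
import Pool.Prelude.Def_F_c31e40fa
import Pool.Agent.H205.LD4

/-!
# Density of the hyperbolic parameters of `z ^ n + c` at all scales, uniformly in the degree

Let `c₀ ∈ M_n` and let `D_k = |(f^k)'(c₀)|`, `f(z) = z ^ n + c₀`. As long as the critical orbit
stays in the region where `|f'| ≥ 2 ^ 32`, the non-hyperbolic parameters of `M_n` have proportion at
most `C (1 + log D_{m+1}) / (n ρ D_{m+1})` in the disc of radius `ρ` about `c₀`, for all
`ρ ≤ 1 / (C n D_m)`, and the disc contains a disc of radius `ρ / 10` consisting of parameters with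
an attracting cycle of period `m + 2` as soon as `n ρ D_{m+1} ≥ C (1 + log max (D_{m+1}, D_{m+2}))`.
The constant `C` does not depend on `n`, `c₀` and `m`.
-/

set_option autoImplicit false
open Metric Set MeasureTheory

namespace Pool.Agent.Results.MP_af9036_an.AllScales

open N62a1eb23

/-- The point `f^j(c)` of the critical orbit of `f(z) = z ^ n + c`; `c` is the critical value. -/
def orb (n : ℕ) (c : ℂ) (j : ℕ) : ℂ := (fun z => z ^ n + c)^[j] c

/-- The modulus `|f'(f^j(c))|`. -/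
noncomputable def a (n : ℕ) (c : ℂ) (j : ℕ) : ℝ := n * ‖orb n c j‖ ^ (n - 1)

/-- The modulus `|(f^k)'(c)|`. -/
noncomputable def D (n : ℕ) (c : ℂ) (k : ℕ) : ℝ := ∏ j ∈ Finset.range k, a n c j

/-- The parameters of `M_n` for which `z ^ n + c` has no attracting cycle. -/
def NonHyp (n : ℕ) : Set ℂ :=
  {c | c ∈ multibrotSet n ∧ ¬ ∃ p z, IsAttractingCycle (fun z => z ^ n + c) p z}

theorem orb_eq (n : ℕ) (c : ℂ) (j : ℕ) : orb n c j = Pool.Agent.H205.AR.v n c j := by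
  induction j with
  | zero => rfl
  | succ j ih =>
    unfold orb at *
    rw [Function.iterate_succ_apply', ih]
    rfl

theorem a_eq (n : ℕ) (c : ℂ) (j : ℕ) : a n c j = Pool.Agent.H205.AR.u n c j := by
  unfold a Pool.Agent.H205.AR.u
  rw [orb_eq]

theorem D_eq (n : ℕ) (c : ℂ) (k : ℕ) : D n c k = Pool.Agent.H205.AR.Q n c k := by
  unfold D Pool.Agent.H205.AR.Q
  exact Finset.prod_congr rfl fun j _ => a_eq n c j

open Pool.Agent.H205 in
theorem result : ∃ C : ℝ, 0 < C ∧ ∀ n : ℕ, 2 ≤ n → ∀ c₀ ∈ multibrotSet n, ∀ m : ℕ,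
    (∀ j ≤ m, 2 ^ 32 ≤ a n c₀ j) → ∀ ρ : ℝ, 0 < ρ → ρ ≤ 1 / (C * n * D n c₀ m) →
    volume (NonHyp n ∩ ball c₀ ρ) ≤
      ENNReal.ofReal (C * (1 + Real.log (D n c₀ (m + 1))) / (n * ρ * D n c₀ (m + 1))) *
        volume (ball c₀ ρ) ∧
    (C * (1 + Real.log (max (D n c₀ (m + 1)) (D n c₀ (m + 2)))) / (n * D n c₀ (m + 1)) ≤ ρ →
      ∃ c₁, ball c₁ (ρ / 10) ⊆ ball c₀ ρ ∧ ∀ c ∈ ball c₁ (ρ / 10),
        ∃ z, IsAttractingCycle (fun z => z ^ n + c) (m + 2) z) := by
  obtain ⟨C, hC, h⟩ := LD.area_local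
  refine ⟨max C 2560, by positivity, ?_⟩
  intro n hn c₀ hc₀ m ha ρ hρ hρ2
  set K := max C 2560 with hK
  have hK1 : C ≤ K := le_max_left _ _
  have hK2 : 2560 ≤ K := le_max_right _ _
  have hn0 : (0:ℝ) < n := by exact_mod_cast (by omega : 0 < n)
  have hΛ := AR.Lam_ge
  have hΛ0 : 0 < AR.Lam := by linarith
  have hL : 4 * AR.Lam = 2 ^ 32 := by unfold AR.Lam; norm_num
  have hu : ∀ j ≤ m, 4 * AR.Lam ≤ AR.u n c₀ j ∧ AR.u n c₀ j ≤ 2 * n := fun j hj =>
    ⟨by rw [hL, ← a_eq]; exact ha j hj, AR.u_le_of_mem hn hc₀ j⟩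
  have hG : AR.Good n AR.Lam m c₀ := fun j hj => ⟨by have := (hu j hj).1; linarith,
    by have := (hu j hj).2; linarith⟩
  have hQ : 0 < AR.Q n c₀ (m + 1) := AR.Q_pos fun j hj => hG.u_pos hΛ0 (by omega)
  have hQm : 0 < AR.Q n c₀ m := AR.Q_pos fun j hj => hG.u_pos hΛ0 (by omega)
  have hQ1 := LD.one_le_Q (by linarith) hG (k := m + 1) le_rfl
  have hlQ := Real.log_nonneg hQ1
  simp only [D_eq] at *
  have hr : ρ ≤ AR.rad n m c₀ / 2 := by
    refine hρ2.trans ?_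
    have hv := LD.v_ge hn hΛ hG
    unfold AR.rad
    calc 1 / (K * n * AR.Q n c₀ m) ≤ 1 / (2560 * n * AR.Q n c₀ m) := by gcongr
      _ = (1 / 8) / (160 * n * AR.Q n c₀ m) / 2 := by field_simp; norm_num
      _ ≤ _ := by gcongr
  constructor
  · have h1 := h n hn c₀ m hu ρ hρ hr
    have hset : NonHyp n ∩ ball c₀ ρ = (multibrotSet n \ AR.hyp n) ∩ ball c₀ ρ := rfl
    rw [hset]
    refine h1.trans ?_
    have hpi : ((NNReal.pi : NNReal) : ENNReal) = ENNReal.ofReal Real.pi := by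
      rw [← NNReal.coe_real_pi, ENNReal.ofReal_coe_nnreal]
    have hvol : volume (ball c₀ ρ) = ENNReal.ofReal (ρ ^ 2 * Real.pi) := by
      rw [Complex.volume_ball, hpi, ← ENNReal.ofReal_pow hρ.le,
        ← ENNReal.ofReal_mul (by positivity)]
    rw [hvol, ← ENNReal.ofReal_mul (by positivity)]
    apply ENNReal.ofReal_le_ofReal
    have hπ : 1 ≤ Real.pi := by linarith [Real.pi_gt_three]
    calc C * ρ * (1 + Real.log (AR.Q n c₀ (m + 1))) / (n * AR.Q n c₀ (m + 1))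
        ≤ K * ρ * (1 + Real.log (AR.Q n c₀ (m + 1))) / (n * AR.Q n c₀ (m + 1)) := by gcongr
      _ ≤ K * ρ * (1 + Real.log (AR.Q n c₀ (m + 1))) / (n * AR.Q n c₀ (m + 1)) * Real.pi :=
          le_mul_of_one_le_right (by positivity) hπ
      _ = _ := by field_simp
  · intro h3
    refine LD.porous hn hu (AR.u_le_of_mem hn hc₀ (m + 1)) ?_ hr
    refine le_trans ?_ h3
    have h4 : 0 ≤ Real.log (max (AR.Q n c₀ (m + 1)) (AR.Q n c₀ (m + 2))) :=
      Real.log_nonneg (hQ1.trans (le_max_left _ _))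
    gcongr
    linarith

end Pool.Agent.Results.MP_af9036_an.AllScales
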