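import Mathlib
import Pool.Prelude.Def_F_c31e40fa
import Pool.Agent.H439.MC.Asm9

/-!
# MP_af9036_an: the limit law for the hyperbolic components of period `n`

Let `M` be the Multibrot set of degree `d ≥ 2`. The centres of the hyperbolic components of period
`n` are the parameters for which the critical point `0` of `z ^ d + c` has exact period `n`. We prove
a central limit theorem for the distance of such a centre to the complement of `M`, and for the
derivatives at the centre, when the centre is chosen at random among all centres of exact period `n`,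
jointly with its position. The limit law is the one of a random boundary parameter (random with
respect to harmonic measure).
-/

set_option autoImplicit false

open Filter Topology Set Metric MeasureTheory N62a1eb23

namespace Pool.Agent.Results.MP_af9036_an.CentralLimitForCentres

open Pool.Agent.H713R2 (IsExteriorMap)
open ProbabilityTheory (gaussianReal)

/-- The polynomial `z ^ d + c`. -/
def f (d : ℕ) (c : ℂ) : ℂ → ℂ := fun z => z ^ d + c

/-- The external ray of angle `θ` (in radians) lands at `c θ`, for almost every `θ`. -/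
def Lands (ψ : ℂ → ℂ) (c : ℝ → ℂ) : Prop :=
  ∀ᵐ θ : ℝ, Tendsto (fun r : ℝ => ψ (r * Complex.exp (θ * Complex.I))) (𝓝[>] 1) (𝓝 (c θ))

/-- The superattracting parameters of exact period `n`: the critical point `0` of `z ^ d + c` is
periodic of exact period `n`. -/
def Centres (d n : ℕ) : Set ℂ := {c | Function.minimalPeriod (f d c) 0 = n}

/-- The logarithm of the derivative of `f ^ k` at the critical value `c`. -/
noncomputable def logDer (d k : ℕ) (c : ℂ) : ℝ := Real.log ‖deriv ((f d c)^[k]) c‖

/-- The logarithm of the derivative of `c ↦ f_c ^ n (0)`. -/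
noncomputable def logCrit (d n : ℕ) (c : ℂ) : ℝ := Real.log ‖deriv (fun b => (f d b)^[n] 0) c‖

/-- The logarithm of `1 / r`, where `r` is the distance of `c` to the complement of the Multibrot set
(the radius of the largest disc of centre `c` in the Multibrot set). -/
noncomputable def logInvDist (d : ℕ) (c : ℂ) : ℝ := Real.log (1 / infDist c (multibrotSet d)ᶜ)

/-- Centred by `n log d` and divided by `√n`. -/
noncomputable def normal (d n : ℕ) (x : ℝ) : ℝ := (x - n * Real.log d) / √n

/-- The mean over the superattracting parameters of exact period `n`. -/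
noncomputable def mean (d n : ℕ) (g : ℂ → ℝ) : ℝ := (∑ᶠ z ∈ Centres d n, g z) / (Centres d n).ncard

/-- **Central limit theorem for the hyperbolic components of period `n`.** Let `M` be the Multibrot set
of degree `d ≥ 2`. Its exterior map `ψ` exists and almost every ray lands, and there is a function
`σ ≥ 0` on `(0, 2π]`, square integrable and with positive integral, such that, for the landing points
`c(θ)` and for all bounded continuous `u : ℂ → ℝ` and `g : ℝ → ℝ`, the following have the same limit
`(2π)⁻¹ ∫ u(c(θ)) E g (σ(θ) x) dθ` (`x` standard normal) as `n → ∞`: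

(1) the mean of `u(c) g (((1 - 1/d) log (1/r(c)) - n log d) / √n)` over the superattracting parameters `c`
of exact period `n`, where `r(c)` is the distance of `c` to the complement of `M`;

(2) the mean of `u(c) g ((log |(f_c^{n-1})'(c)| - n log d) / √n)` over these parameters;

(3) the mean of `u(c) g ((log |d/dc f_c^n(0)| - n log d) / √n)` over these parameters;

(4) the mean over `θ` of `u(c(θ)) g ((log |(f_{c(θ)}^n)'(c(θ))| - n log d) / √n)`. -/
theorem result (d : ℕ) (hd : 2 ≤ d) :
    (∃ ψ : ℂ → ℂ, IsExteriorMap (multibrotSet d) ψ) ∧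
    ∃ σ : ℝ → ℝ, Measurable σ ∧ (∀ θ, 0 ≤ σ θ) ∧
      IntervalIntegrable (fun θ => σ θ ^ 2) volume 0 (2 * Real.pi) ∧
      0 < ∫ θ in (0 : ℝ)..2 * Real.pi, σ θ ∧
      ∀ ψ : ℂ → ℂ, IsExteriorMap (multibrotSet d) ψ →
        (∃ c : ℝ → ℂ, Lands ψ c) ∧
        ∀ c : ℝ → ℂ, Lands ψ c →
          ∀ (u : BoundedContinuousFunction ℂ ℝ) (g : BoundedContinuousFunction ℝ ℝ) (lim : ℝ),
            lim = (2 * Real.pi)⁻¹ *
              ∫ θ in (0 : ℝ)..2 * Real.pi, u (c θ) * ∫ x, g (σ θ * x) ∂(gaussianReal 0 1) →
            Tendsto (fun n : ℕ => mean d n fun z => u z * g (normal d n ((1 - 1 / d) * logInvDist d z)))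
              atTop (𝓝 lim) ∧
            Tendsto (fun n : ℕ => mean d n fun z => u z * g (normal d n (logDer d (n - 1) z)))
              atTop (𝓝 lim) ∧
            Tendsto (fun n : ℕ => mean d n fun z => u z * g (normal d n (logCrit d n z)))
              atTop (𝓝 lim) ∧
            Tendsto (fun n : ℕ => (2 * Real.pi)⁻¹ *
              ∫ θ in (0 : ℝ)..2 * Real.pi, u (c θ) * g (normal d n (logDer d n (c θ)))) atTop (𝓝 lim) := by
  obtain ⟨β, hβ⟩ := Pool.Agent.H713R2.exists_beta (d := d) hd
  refine ⟨⟨_, Pool.Agent.H713R2.exteriorMap_of_beta hβ⟩, ?_⟩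
  obtain ⟨σ, h1, h2, h3, h4, h5⟩ := Pool.Agent.H439.MC.clt_cen hd hβ
  refine ⟨σ, h1, h2, h3, h4, ?_⟩
  intro ψ hψ
  refine ⟨Pool.Agent.H439.MC.exists_lands hd hβ hψ, ?_⟩
  intro c hc u g lim hlim
  obtain ⟨k1, k2⟩ := h5 ψ hψ c hc u g
  rw [← hlim] at k1 k2
  -- the mean as a sum
  have hmean : ∀ n : ℕ, 1 ≤ n → ∀ G : ℂ → ℝ, mean d n G =
      (∑ z ∈ Pool.Agent.H439.MC.Zn d n, G z) / ((Pool.Agent.H439.MC.Zn d n).card : ℝ) := by
    intro n hn G
    have e1 : Centres d n = ((Pool.Agent.H439.MC.Zn d n : Finset ℂ) : Set ℂ) := by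
      ext z
      rw [Finset.mem_coe, Pool.Agent.H439.MC.mem_Zn hd hn]
      rfl
    unfold mean
    rw [e1, finsum_mem_coe_finset, ncard_coe_finset]
  have hder : ∀ (m : ℕ) (z : ℂ), logDer d m z = Real.log ‖Pool.Agent.Y272.TY.MM d z (m + 1)‖ := by
    intro m z
    unfold logDer
    rw [← Pool.Agent.H439.MC.deriv_fc_iter hd]
    rfl
  refine ⟨?_, ?_, ?_, ?_⟩
  · refine (k1 (Pool.Agent.H439.MC.Rc d) fun s hs => Pool.Agent.H439.MC.lipLim_Rc hd hβ hψ hs).congr' ?_
    filter_upwards [eventually_ge_atTop 1] with n hn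
    rw [hmean n hn]
    rfl
  · refine (k1 (Pool.Agent.H439.MC.Yc d) fun s hs => Pool.Agent.H439.MC.lipLim_Yc hd hβ hψ hs).congr' ?_
    filter_upwards [eventually_ge_atTop 1] with n hn
    rw [hmean n hn]
    congr 1
    apply Finset.sum_congr rfl
    intro z _
    obtain ⟨m, rfl⟩ : ∃ m, n = m + 1 := ⟨n - 1, by omega⟩
    rw [Nat.add_sub_cancel, hder]
    rfl
  · refine (k1 (Pool.Agent.H439.MC.Bc d) fun s hs => Pool.Agent.H439.MC.lipLim_Bc hd hβ hψ hs).congr' ?_
    filter_upwards [eventually_ge_atTop 1] with n hn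
    rw [hmean n hn]
    rfl
  · have eX : ∀ n θ, normal d n (logDer d n (c θ)) = Pool.Agent.H439.MC.Xn d c n θ := by
      intro n θ
      unfold normal Pool.Agent.H439.MC.Xn
      rw [hder]
    simp only [eX]
    exact k2

end Pool.Agent.Results.MP_af9036_an.CentralLimitForCentres
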