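import Mathlib
import Pool.Prelude.Def_F_c31e40fa
import Pool.Agent.H205.DM2
import Pool.Agent.H205.DL6

/-!
# The dimension of the parameters of `z ^ n + c` with a strongly expanding critical orbit

The parameters `c ∈ M_n` for which `|f'| ≥ Λ` along the whole orbit of the critical value form a set
of Hausdorff dimension `1 + (log log Λ - log log log Λ + O(1)) / log Λ`: the upper bound holds for
all degrees `n ≥ 2`, the lower bound for all `n ≥ Λ ^ 6`.
-/

set_option autoImplicit false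
open Metric Set MeasureTheory
open scoped NNReal ENNReal

namespace Pool.Agent.Results.MP_af9036_an.ExpandingDimension

open N62a1eb23

/-- The point `f^j(c)` of the critical orbit of `f(z) = z ^ n + c`; `c` is the critical value. -/
def orb (n : ℕ) (c : ℂ) (j : ℕ) : ℂ := (fun z => z ^ n + c)^[j] c

/-- The modulus `|f'(f^j(c))|`. -/
noncomputable def a (n : ℕ) (c : ℂ) (j : ℕ) : ℝ := n * ‖orb n c j‖ ^ (n - 1)

/-- The parameters `c ∈ M_n` for which `|f'| ≥ Λ` along the whole orbit of the critical value. -/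
def Expanding (n : ℕ) (Λ : ℝ) : Set ℂ := {c | c ∈ multibrotSet n ∧ ∀ j, Λ ≤ a n c j}

theorem orb_eq (n : ℕ) (c : ℂ) (j : ℕ) : orb n c j = Pool.Agent.H205.AR.v n c j := by
  induction j with
  | zero => rfl
  | succ j ih =>
    unfold orb at *
    rw [Function.iterate_succ_apply', ih]
    rfl

theorem a_eq (n : ℕ) (c : ℂ) (j : ℕ) : a n c j = Pool.Agent.H205.AR.u n c j := by
  unfold a Pool.Agent.H205.AR.u
  rw [orb_eq]

open Pool.Agent.H205 in
theorem upper {Λ t : ℝ} (hΛ : 64 ≤ Λ) (ht0 : 0 < t) (ht1 : t ≤ 1)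
    (h : 5120000 ≤ t * Λ ^ t) {n : ℕ} (hn : 2 ≤ n) :
    dimH (Expanding n Λ) ≤ ENNReal.ofReal (1 + t) := by
  have hΛ0 : 0 < Λ := by linarith
  have hΛ'0 : 0 < Λ / 2 := by linarith
  have hkey : 1280000 * ((Λ / 2) ^ (1 - t) / (Λ / 2) / (1 - (1 - t))) ≤ 1 / 2 := by
    have h1 : (Λ / 2) ^ (1 - t) / (Λ / 2) = ((Λ / 2) ^ t)⁻¹ := by
      rw [Real.rpow_sub hΛ'0, Real.rpow_one]
      field_simp
    have h2 : Λ ^ t / 2 ≤ (Λ / 2) ^ t := by
      rw [Real.div_rpow hΛ0.le (by norm_num)]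
      have h3 : (2:ℝ) ^ t ≤ 2 := by
        calc (2:ℝ) ^ t ≤ 2 ^ (1:ℝ) := Real.rpow_le_rpow_of_exponent_le (by norm_num) ht1
          _ = 2 := Real.rpow_one 2
      have h4 : 0 < (2:ℝ) ^ t := by positivity
      have h5 : 0 < Λ ^ t := by positivity
      gcongr
    rw [h1]
    have h3 : 1 - (1 - t) = t := by ring
    rw [h3]
    have h6 : 0 < (Λ / 2) ^ t := by positivity
    have h7 : 2560000 ≤ t * (Λ / 2) ^ t := by nlinarith
    have h8 : 1280000 * (((Λ / 2) ^ t)⁻¹ / t) = 1280000 / (t * (Λ / 2) ^ t) := by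
      field_simp
    rw [h8, div_le_iff₀ (by positivity)]
    linarith
  have hz := DM.hausdorff_zero (n := n) (Λ := Λ / 2) (p := 1 - t) hn (by linarith) (by linarith)
    (by linarith) hkey
  have hsub : Expanding n Λ ⊆ DM.EE n (2 * (Λ / 2)) := by
    intro c hc j
    rw [show 2 * (Λ / 2) = Λ by ring]
    exact ⟨by rw [← a_eq]; exact hc.2 j, AR.u_le_of_mem hn hc.1 j⟩
  have hs : ((Real.toNNReal (1 + t) : ℝ≥0) : ℝ) = 2 - (1 - t) := by
    rw [Real.coe_toNNReal _ (by linarith)]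
    ring
  have hz2 : μH[((Real.toNNReal (1 + t) : ℝ≥0) : ℝ)] (Expanding n Λ) = 0 := by
    rw [hs]
    exact measure_mono_null hsub hz
  exact dimH_le_of_hausdorffMeasure_ne_top (d := Real.toNNReal (1 + t))
    (s := Expanding n Λ) (by rw [hz2]; exact ENNReal.zero_ne_top)

open Pool.Agent.H205 in
theorem lower {Λ t : ℝ} (hΛ : Real.exp 100 ≤ Λ) (ht0 : 1 / Real.log Λ ≤ t) (ht1 : t ≤ 1)
    (h : 32000000 * (t * Λ ^ t) ≤ 1) {n : ℕ} (hn : Λ ^ 6 ≤ n) :
    ENNReal.ofReal (1 + t) ≤ dimH (Expanding n Λ) := by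
  have hΛ0 : 0 < Λ := (Real.exp_pos _).trans_le hΛ
  have hL : 100 ≤ Real.log Λ := by rwa [Real.le_log_iff_exp_le hΛ0]
  set L := Real.log Λ with hLdef
  have ht : 0 < t := lt_of_lt_of_le (by positivity) ht0
  have hexp : Real.exp L = Λ := Real.exp_log hΛ0
  have hbig : 10 ^ 6 * (L + 1) ≤ Λ := by
    have h1 := Real.quadratic_le_exp_of_nonneg (x := L / 4) (by linarith)
    have h2 : Real.exp (L / 4) ^ 4 = Λ := by
      rw [← Real.exp_nat_mul, ← hexp]; congr 1; push_cast; ring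
    have h3 : 10 ^ 2 ≤ Real.exp (L / 4) := by nlinarith
    have h4 : L + 1 ≤ Real.exp (L / 4) := by nlinarith
    have h5 : (10 ^ 2 : ℝ) ^ 3 ≤ Real.exp (L / 4) ^ 3 := by gcongr
    calc 10 ^ 6 * (L + 1) ≤ Real.exp (L / 4) ^ 3 * Real.exp (L / 4) := by
          have : (0:ℝ) ≤ L + 1 := by linarith
          have h6 : (10:ℝ) ^ 6 ≤ Real.exp (L / 4) ^ 3 := by norm_num at h5 ⊢; linarith
          gcongr
      _ = Real.exp (L / 4) ^ 4 := by ring
      _ = Λ := h2
  set J := ⌊1 / t⌋₊ + 1 with hJ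
  have h1t : 1 / t ≤ L := by
    rw [div_le_iff₀ ht]
    rw [div_le_iff₀ (by linarith)] at ht0
    linarith
  have hJ1 : 1 / t ≤ J := by
    rw [hJ]; push_cast; exact (Nat.lt_floor_add_one _).le
  have hJ2 : (J:ℝ) ≤ 1 / t + 1 := by
    rw [hJ]; push_cast
    have := Nat.floor_le (show 0 ≤ 1 / t by positivity)
    linarith
  have hJt : (J:ℝ) * t ≤ 2 := by
    have : (J:ℝ) * t ≤ (1 / t + 1) * t := by gcongr
    have e : (1 / t + 1) * t = 1 + t := by field_simp
    linarith
  have h4J : (4:ℝ) ^ J ≤ 4 * Λ ^ (3 / 2 : ℝ) := by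
    have hlog4 : Real.log 4 ≤ 3 / 2 := by
      have : Real.log 4 = 2 * Real.log 2 := by
        rw [show (4:ℝ) = 2 ^ 2 by norm_num, Real.log_pow]; norm_num
      linarith [Real.log_two_lt_d9]
    calc (4:ℝ) ^ J = (4:ℝ) ^ (J:ℝ) := (Real.rpow_natCast 4 J).symm
      _ ≤ (4:ℝ) ^ (L + 1) := Real.rpow_le_rpow_of_exponent_le (by norm_num) (by linarith)
      _ = 4 * 4 ^ L := by rw [Real.rpow_add (by norm_num), Real.rpow_one]; ring
      _ ≤ 4 * Λ ^ (3 / 2 : ℝ) := by
          have : (4:ℝ) ^ L ≤ Λ ^ (3 / 2 : ℝ) := by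
            rw [Real.rpow_def_of_pos (by norm_num), Real.rpow_def_of_pos hΛ0, ← hLdef]
            apply Real.exp_le_exp.2
            nlinarith
          gcongr
  have hn2 : 2 ≤ n := by
    have h1 : (64:ℝ) ≤ Λ := by nlinarith
    have h2 : (64:ℝ) ^ 6 ≤ Λ ^ 6 := by gcongr
    have h3 : (2:ℝ) ≤ n := by linarith
    exact_mod_cast h3
  have hn0 : (0:ℝ) < n := by exact_mod_cast (by omega : 0 < n)
  obtain ⟨cs, hcs⟩ := IsAlgClosed.exists_pow_nat_eq (Complex.I * ((2 * Λ / n : ℝ) : ℂ))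
    (show 0 < n - 1 by omega)
  have hset : DL.Setup n (2 * Λ) J cs := by
    refine ⟨hn2, hcs, by nlinarith, by omega, ?_, ?_⟩
    · have : (J:ℝ) ≤ L + 1 := by linarith
      nlinarith
    · calc ((4:ℝ) ^ J * (2 * Λ)) ^ 2 ≤ (4 * Λ ^ (3 / 2 : ℝ) * (2 * Λ)) ^ 2 := by gcongr
        _ = 64 * (Λ ^ (3 / 2 : ℝ)) ^ 2 * Λ ^ 2 := by ring
        _ = 64 * Λ ^ 3 * Λ ^ 2 := by
            rw [← Real.rpow_natCast (Λ ^ (3 / 2 : ℝ)) 2, ← Real.rpow_mul hΛ0.le,
              ← Real.rpow_natCast Λ 3]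
            norm_num
        _ ≤ Λ * Λ ^ 3 * Λ ^ 2 := by
            have h1 : (64:ℝ) ≤ Λ := by nlinarith
            gcongr
        _ = Λ ^ 6 := by ring
        _ ≤ n := hn
  have hsum : 10 ^ 6 ≤ ∑ j ∈ Finset.range J, ((4:ℝ) ^ j * (2 * Λ)) ^ (1 - (1 + t)) := by
    have h2Λ : (2 * Λ) ^ (-t) ≥ Λ ^ (-t) / 2 := by
      rw [Real.mul_rpow (by norm_num) hΛ0.le]
      have : (1 / 2 : ℝ) ≤ 2 ^ (-t) := by
        calc (1 / 2 : ℝ) = 2 ^ (-1 : ℝ) := by rw [Real.rpow_neg_one]; norm_num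
          _ ≤ _ := Real.rpow_le_rpow_of_exponent_le (by norm_num) (by linarith)
      have h5 : 0 < Λ ^ (-t) := by positivity
      nlinarith
    have hterm : ∀ j ∈ Finset.range J, Λ ^ (-t) / 32 ≤
        ((4:ℝ) ^ j * (2 * Λ)) ^ (1 - (1 + t)) := by
      intro j hj
      have hjJ : (j:ℝ) ≤ J := by exact_mod_cast (Finset.mem_range.1 hj).le
      have e : 1 - (1 + t) = -t := by ring
      rw [e, Real.mul_rpow (by positivity) (by positivity), ← Real.rpow_natCast 4 j,
        ← Real.rpow_mul (by norm_num)]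
      have h6 : (1 / 16 : ℝ) ≤ (4:ℝ) ^ ((j:ℝ) * -t) := by
        calc (1 / 16 : ℝ) = 4 ^ (-2 : ℝ) := by
              rw [Real.rpow_neg (by norm_num), show (2:ℝ) = ((2:ℕ):ℝ) by norm_num,
                Real.rpow_natCast]
              norm_num
          _ ≤ _ := by
              apply Real.rpow_le_rpow_of_exponent_le (by norm_num)
              have : (j:ℝ) * t ≤ J * t := by gcongr
              linarith
      have h5 : 0 < Λ ^ (-t) := by positivity
      calc Λ ^ (-t) / 32 = 1 / 16 * (Λ ^ (-t) / 2) := by ring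
        _ ≤ _ := by gcongr
    have hΛt : Λ ^ (-t) = (Λ ^ t)⁻¹ := Real.rpow_neg hΛ0.le t
    have hΛt0 : 0 < Λ ^ t := by positivity
    calc (10:ℝ) ^ 6 ≤ (1 / t) * (Λ ^ (-t) / 32) := by
          rw [hΛt]
          have : 1 / t * ((Λ ^ t)⁻¹ / 32) = 1 / (32 * (t * Λ ^ t)) := by field_simp
          rw [this, le_div_iff₀ (by positivity)]
          linarith
      _ ≤ J * (Λ ^ (-t) / 32) := by gcongr
      _ = ∑ j ∈ Finset.range J, Λ ^ (-t) / 32 := by
          rw [Finset.sum_const, Finset.card_range, nsmul_eq_mul]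
      _ ≤ _ := Finset.sum_le_sum hterm
  have hmain := DL.lower hset (s := 1 + t) (by linarith) (by linarith) hsum
  refine hmain.trans (dimH_mono ?_)
  intro c hc
  refine ⟨hc.1, fun j => ?_⟩
  rw [a_eq]
  have := hc.2 j
  linarith

theorem result : ∃ Λ₀ : ℝ, ∀ Λ : ℝ, Λ₀ ≤ Λ →
    (∀ n : ℕ, 2 ≤ n → dimH (Expanding n Λ) ≤ ENNReal.ofReal
      (1 + (Real.log (Real.log Λ) - Real.log (Real.log (Real.log Λ)) + 18) / Real.log Λ)) ∧
    ∀ n : ℕ, Λ ^ 6 ≤ n → ENNReal.ofReal
      (1 + (Real.log (Real.log Λ) - Real.log (Real.log (Real.log Λ)) - 18) / Real.log Λ) ≤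
        dimH (Expanding n Λ) := by
  refine ⟨Real.exp (Real.exp 100), ?_⟩
  intro Λ hΛ
  have hΛ0 : 0 < Λ := (Real.exp_pos _).trans_le hΛ
  have hL : Real.exp 100 ≤ Real.log Λ := by rwa [Real.le_log_iff_exp_le hΛ0]
  set L := Real.log Λ with hLdef
  have hL0 : 0 < L := (Real.exp_pos _).trans_le hL
  have hl : 100 ≤ Real.log L := by rwa [Real.le_log_iff_exp_le hL0]
  set l := Real.log L with hldef
  have hL100 : 10000 ≤ L := by
    have := Real.quadratic_le_exp_of_nonneg (x := 100) (by norm_num)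
    have h2 : Real.exp 100 = Real.exp 50 ^ 2 := by rw [← Real.exp_nat_mul]; norm_num
    have h3 := Real.quadratic_le_exp_of_nonneg (x := 50) (by norm_num)
    nlinarith
  have hΛ100 : Real.exp 100 ≤ Λ := by
    refine le_trans ?_ hΛ
    apply Real.exp_le_exp.2
    linarith [Real.add_one_le_exp (100:ℝ)]
  have hΛ64 : 64 ≤ Λ := by linarith [Real.add_one_le_exp (100:ℝ)]
  have hlL : l ≤ L / 4 := by
    have h4 : Real.log (L / 16) ≤ L / 16 - 1 := Real.log_le_sub_one_of_pos (by linarith)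
    rw [Real.log_div (by linarith) (by norm_num)] at h4
    have h5 : Real.log 16 ≤ 2.8 := by
      have : Real.log 16 = 4 * Real.log 2 := by
        rw [show (16:ℝ) = 2 ^ 4 by norm_num, Real.log_pow]; norm_num
      linarith [Real.log_two_lt_d9]
    linarith
  have hll0 : 0 ≤ Real.log l := Real.log_nonneg (by linarith)
  have hll : Real.log l ≤ l / 2 := by
    have h4 : Real.log (l / 2) ≤ l / 2 - 1 := Real.log_le_sub_one_of_pos (by linarith)
    rw [Real.log_div (by linarith) (by norm_num)] at h4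
    linarith [Real.log_two_lt_d9]
  have hexpo : ∀ b : ℝ, Λ ^ ((l - Real.log l + b) / L) = L / l * Real.exp b := by
    intro b
    rw [Real.rpow_def_of_pos hΛ0, ← hLdef]
    have e : L * ((l - Real.log l + b) / L) = l - Real.log l + b := by field_simp
    rw [e, Real.exp_add, Real.exp_sub, hldef, Real.exp_log hL0, ← hldef,
      Real.exp_log (by linarith)]
  have he18 : 32000000 ≤ Real.exp 18 := by
    have : Real.exp 18 = Real.exp 1 ^ 18 := by rw [← Real.exp_nat_mul]; norm_num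
    rw [this]
    calc (32000000:ℝ) ≤ 2.7 ^ 18 := by norm_num
      _ ≤ _ := by
          have : (2.7 : ℝ) ≤ Real.exp 1 := by linarith [Real.exp_one_gt_d9]
          gcongr
  constructor
  · intro n hn
    apply upper hΛ64 (t := (l - Real.log l + 18) / L) _ _ _ hn
    · apply div_pos _ hL0
      linarith
    · rw [div_le_one hL0]
      linarith
    · rw [hexpo]
      have e : (l - Real.log l + 18) / L * (L / l * Real.exp 18) =
          (l - Real.log l + 18) / l * Real.exp 18 := by field_simp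
      rw [e]
      have h1 : 1 / 2 ≤ (l - Real.log l + 18) / l := by
        rw [div_le_div_iff₀ (by norm_num) (by linarith)]
        linarith
      nlinarith
  · intro n hn
    have e0 : l - Real.log l - 18 = l - Real.log l + (-18) := by ring
    rw [e0]
    apply lower hΛ100 (t := (l - Real.log l + (-18)) / L) _ _ _ hn
    · rw [← hLdef]
      gcongr
      linarith
    · rw [div_le_one hL0]
      linarith
    · rw [hexpo]
      have e : (l - Real.log l + -18) / L * (L / l * Real.exp (-18)) =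
          (l - Real.log l + -18) / l * Real.exp (-18) := by field_simp
      rw [e]
      have h1 : (l - Real.log l + -18) / l ≤ 1 := by
        rw [div_le_one (by linarith)]
        linarith
      have h2 : 0 ≤ (l - Real.log l + -18) / l := by
        apply div_nonneg <;> linarith
      have h3 : Real.exp 18 * Real.exp (-18) = 1 := by rw [← Real.exp_add]; norm_num
      have h4 := Real.exp_pos (-18)
      have h5 : 32000000 * Real.exp (-18) ≤ 1 := by nlinarith
      nlinarith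

end Pool.Agent.Results.MP_af9036_an.ExpandingDimension
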