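import Mathlib
import Pool.Prelude.Def_F_c31e40fa
import Pool.Agent.H206.RemV
import Pool.Agent.H206.RemW
import Pool.Agent.H206.RemZ
import Pool.Agent.H206.RemAB

/-!
# Hyperbolic parameters at all scales around the Misiurewicz parameters

Let `M` be the Multibrot set of degree `d ≥ 2`, let `H ⊆ M` be the set of its hyperbolic parameters
(those with an attracting cycle) and let `θ = area (M \ H) / area M` be the proportion of the other
ones. Let `c₀` be a Misiurewicz parameter (the critical point is strictly preperiodic), or, more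
generally, a parameter with a positive Lyapunov exponent and a non-recurrent critical orbit: the orbit
of the critical value stays away from the critical point. (By the theorem of Mañé all parameters with
a non-recurrent critical point in the Julia set are semihyperbolic; those of them for which the
Lyapunov exponent exists are the parameters considered here.)

**Theorem.** (1) For every `ε > 0`, in ALL discs of centre `c₀` and sufficiently small radius `r`, the
hyperbolic parameters have in `M` at least their global proportion, up to `ε`: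
`area ((M \ H) ∩ D(c₀, r)) ≤ (θ + ε) area (M ∩ D(c₀, (1 + ε) r))` and
`(1 - θ - ε) area (M ∩ D(c₀, r)) ≤ area (H ∩ D(c₀, (1 + ε) r))`. Up to the proportion `ε` of its
area, `M ∩ D(c₀, r)` consists of finitely many small copies of `M` with large disjoint collars.
(2) The areas of `H ∩ D(c₀, r)` and of `M ∩ D(c₀, r)` have the exact order `r ^ (2 d / (d - 1))`. So
at all scales a definite proportion of `M` is hyperbolic.
(3) `θ ≤ 1 / 2` in every degree and `θ ≤ 0.443` for the Mandelbrot set, so (1) holds with these explicit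
constants: at all small scales at least about half of the area of `M` is hyperbolic.

In (1) the radius on the right has to be enlarged: the circle of radius `r` can cut one of the
largest small copies.

Method. The critical orbit is uniformly expanding (`RemAB`, by the expansion away from the critical
point at Collet-Eckmann parameters, library `N253.SM`). Hence the sum of the quotients of the
derivatives `|(f ^ j)'(c₀)|` and the `|f ^ j (c₀)|` over `j < k` is at most a constant times
`|(f ^ k)'(c₀)|`, so every small disc is mapped by some iterate almost affinely to a disc of definite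
size (`RemU`). At such scales all but a
small part of `M` is near superattracting parameters of periods `k + 1, ..., k + N`; the number of
these parameters in the disc is bounded, by the growth of polynomials and because the critical orbit
is not recurrent (`RemT`), and their distance from the points of `M` near them has the order of the
size of the largest copies (`RemS`). The bounds in (3) compare the area of `M`, bounded above by the
area theorem (the first coefficients of the exterior map), with the area of the main component and,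
in degree 2, of the component of period 2 (`RemX`, `RemY`, `RemZ`).
-/

set_option autoImplicit false

open MeasureTheory Filter Metric Topology Set

namespace Pool.Agent.Results.MP_af9036_an.MisiurewiczProportion

open N62a1eb23

/-- The polynomial `z ^ d + c`. -/
def f (d : ℕ) (c : ℂ) : ℂ → ℂ := fun z => z ^ d + c

/-- The critical orbit as a function of the parameter. -/
def crit (d n : ℕ) (c : ℂ) : ℂ := (f d c)^[n] 0

/-- The parameters with attracting cycles. -/
def hyperbolic (d : ℕ) : Set ℂ := {c | ∃ m z, IsAttractingCycle (f d c) m z}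

/-- `c₀` is a Misiurewicz parameter: the critical point is preperiodic and not periodic. -/
def Misiurewicz (d : ℕ) (c₀ : ℂ) : Prop :=
  (∃ m n : ℕ, 1 ≤ n ∧ (f d c₀)^[m + n] 0 = (f d c₀)^[m] 0) ∧ ∀ p : ℕ, 1 ≤ p → (f d c₀)^[p] 0 ≠ 0

/-- `c₀` is in the Multibrot set, the critical value `c₀` has a positive Lyapunov exponent, and the
critical orbit is not recurrent: it stays away from the critical point. -/
def NonRecurrent (d : ℕ) (c₀ : ℂ) : Prop :=
  c₀ ∈ multibrotSet d ∧
    (∃ χ : ℝ, 0 < χ ∧
      Tendsto (fun n : ℕ => Real.log ‖deriv ((f d c₀)^[n]) c₀‖ / n) atTop (𝓝 χ)) ∧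
    ∃ s : ℝ, 0 < s ∧ ∀ k : ℕ, 1 ≤ k → s ≤ ‖(f d c₀)^[k] 0‖

/-- The area of the part of `A` in the disc of centre `c` and radius `r`. -/
noncomputable def area (A : Set ℂ) (c : ℂ) (r : ℝ) : ℝ := (volume (A ∩ closedBall c r)).toReal

/-- The proportion of the non-hyperbolic parameters in the Multibrot set. -/
noncomputable def proportion (d : ℕ) : ℝ :=
  (volume (multibrotSet d \ hyperbolic d)).toReal / (volume (multibrotSet d)).toReal

/-- `c` is superattracting of an exact period `n`, and `l` is the scale of the small copy of centre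
`c`, given by the derivatives of the critical orbit. -/
def IsScale (d : ℕ) (c l : ℂ) : Prop :=
  ∃ n : ℕ, 0 < n ∧ Function.minimalPeriod (f d c) 0 = n ∧
    ∃ m : ℂ, m ≠ 0 ∧ m ^ (d - 1) * deriv ((f d c)^[n - 1]) c = 1 ∧ l ≠ 0 ∧
      l * deriv (crit d n) c = m

/-- Up to the proportion `ε` of its area, the part of the Multibrot set in the disc of centre `c₀`
and radius `r` is a union of small copies, surrounded by large disjoint discs. -/
def Filled (d : ℕ) (ε : ℝ) (c₀ : ℂ) (r : ℝ) : Prop :=
  ∃ (u : Finset ℂ) (l : ℂ → ℂ),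
    (∀ c ∈ u, IsScale d c (l c) ∧ closedBall c (‖l c‖ / ε) ⊆ closedBall c₀ ((1 + ε) * r) ∧
      ∀ κ : ℂ, ball κ ε ⊆ hyperbolic d → c + l c * κ ∈ hyperbolic d) ∧
    (∀ c ∈ u, ∀ c' ∈ u, c ≠ c' →
      Disjoint (closedBall c (‖l c‖ / ε)) (closedBall c' (‖l c'‖ / ε))) ∧
    area {b | b ∈ multibrotSet d ∧ ∀ c ∈ u, ∀ κ ∈ multibrotSet d,
      ε * ‖l c‖ ≤ ‖b - (c + l c * κ)‖} c₀ r ≤ ε * area (multibrotSet d) c₀ r

/-- At all small scales the hyperbolic parameters have at least their global proportion, and the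
Multibrot set is filled with small copies. -/
def Local (d : ℕ) (c₀ : ℂ) : Prop :=
  ∀ ε : ℝ, 0 < ε → ∃ r₀ : ℝ, 0 < r₀ ∧ ∀ r : ℝ, 0 < r → r < r₀ →
    area (multibrotSet d \ hyperbolic d) c₀ r ≤
      (proportion d + ε) * area (multibrotSet d) c₀ ((1 + ε) * r) ∧
    (1 - proportion d - ε) * area (multibrotSet d) c₀ r ≤
      area (hyperbolic d) c₀ ((1 + ε) * r) ∧ Filled d ε c₀ r

/-- The areas of the Multibrot set and of its hyperbolic part have the same exact order at all small
scales. -/
def ExactOrder (d : ℕ) (c₀ : ℂ) : Prop :=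
  ∃ a C r₀ : ℝ, 0 < a ∧ 0 < C ∧ 0 < r₀ ∧ ∀ r : ℝ, 0 < r → r < r₀ →
    a * r ^ (2 * (d : ℝ) / (d - 1)) ≤ area (hyperbolic d) c₀ r ∧
    area (multibrotSet d) c₀ r ≤ C * r ^ (2 * (d : ℝ) / (d - 1))

open Pool.Agent.H206.Rem
open Pool.Agent.H712R2 (P fc)

/-- the period is exact -/
theorem exact_period {d : ℕ} (hd : 2 ≤ d) {c : ℂ} {p : ℕ} (hp : 0 < p) (hP : P d p c = 0)
    (hder : deriv ((fc d c)^[p - 1]) c ≠ 0) : Function.minimalPeriod (f d c) 0 = p := by
  have hper : Function.IsPeriodicPt (f d c) p 0 := hP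
  have hpos := hper.minimalPeriod_pos hp
  have hle := hper.minimalPeriod_le hp
  obtain ⟨q, hq⟩ : ∃ q, q = Function.minimalPeriod (f d c) 0 := ⟨_, rfl⟩
  rw [← hq] at hpos hle ⊢
  by_contra hne
  have hlt : q < p := lt_of_le_of_ne hle hne
  have hPq : (f d c)^[q] 0 = 0 := by
    rw [hq]
    exact Function.isPeriodicPt_minimalPeriod (f d c) 0
  apply hder
  have hz : Pool.Agent.Y298.SH.CD.zz d c (q - 1) = 0 := by
    obtain ⟨j, rfl⟩ : ∃ j, q = j + 1 := ⟨q - 1, by omega⟩
    rw [Function.iterate_succ_apply] at hPq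
    have h0 : f d c 0 = c := by
      unfold f
      rw [zero_pow (by omega), zero_add]
    rw [h0] at hPq
    exact hPq
  have h1 : Pool.Agent.Y298.SH.CD.Pd d c (q - 1 + 1) = 0 := by
    rw [Pool.Agent.Y298.SH.CD.Pd_succ, hz, norm_zero, zero_pow (by omega)]
    ring
  have h2 : Pool.Agent.Y298.SH.CD.Pd d c (p - 1) = 0 := by
    have e : p - 1 = (p - 1 - q) + (q - 1 + 1) := by omega
    rw [e, Pool.Agent.Y298.SH.CD.Pd_add, h1, mul_zero]
  exact norm_eq_zero.1 h2

theorem thet_eq {d : ℕ} (hd : 2 ≤ d) : thet d = proportion d := by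
  have h1 := area_split hd (B := univ) MeasurableSet.univ
  rw [inter_univ, inter_univ, inter_univ] at h1
  unfold thet proportion
  have h2 : volume.real (multibrotSet d) - volume.real (HH d) =
      volume.real (multibrotSet d \ HH d) := by linarith
  rw [h2]
  rfl

theorem crit_succ {d : ℕ} (hd : 2 ≤ d) (c₀ : ℂ) (j : ℕ) :
    (f d c₀)^[j + 1] 0 = (f d c₀)^[j] c₀ := by
  rw [Function.iterate_succ_apply]
  congr 1
  unfold f
  rw [zero_pow (by omega), zero_add]

/-- Misiurewicz parameters are not recurrent -/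
theorem nonrecurrent_of_misiurewicz {d : ℕ} (hd : 2 ≤ d) {c₀ : ℂ} (h : Misiurewicz d c₀) :
    NonRecurrent d c₀ := by
  obtain ⟨M, h1, h2⟩ :=
    Pool.Agent.Results.MP_c35c17_an.UniformlyExpanding.expanding_of_misiurewicz hd
      (c := c₀) (show Pool.Agent.Results.MP_c35c17_an.UniformlyExpanding.Misiurewicz d c₀ from h)
  obtain ⟨s, hs, h5⟩ := nonrec_of_uex hd h1 (uex_of h2)
  refine ⟨h1, ?_, s, hs, fun k hk => ?_⟩
  swap
  · obtain ⟨j, rfl⟩ : ∃ j, k = j + 1 := ⟨k - 1, by omega⟩
    rw [crit_succ hd]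
    exact h5 j
  obtain ⟨hpp, hnp⟩ := h
  obtain ⟨L, k, ω, hO⟩ := Pool.Agent.TH279.MD.orb_of_preper hd hpp hnp
  have hmu := Pool.Agent.TH279.MD.repelling hd hO
  have hper := Pool.Agent.TH279.MD.vv_period hO
  have hlt := hO.lt
  have hp : (Pool.Agent.TH279.MD.f d c₀)^[L - k] ((Pool.Agent.TH279.MD.f d c₀)^[k + 1] c₀) =
      (Pool.Agent.TH279.MD.f d c₀)^[k + 1] c₀ := by
    have h3 := hper (k + 1) le_rfl
    unfold Pool.Agent.TH279.MD.vv at h3
    rw [add_comm (k + 1) (L - k), Function.iterate_add_apply] at h3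
    exact h3
  have hder : 1 < ‖deriv ((Pool.Agent.TH279.MD.f d c₀)^[L - k])
      ((Pool.Agent.TH279.MD.f d c₀)^[k + 1] c₀)‖ := by
    have h3 : deriv ((Pool.Agent.TH279.MD.f d c₀)^[L - k])
        ((Pool.Agent.TH279.MD.f d c₀)^[k + 1] c₀) = ∏ l ∈ Finset.range (L - k),
          ((d : ℂ) * ((Pool.Agent.TH279.MD.f d c₀)^[l]
            ((Pool.Agent.TH279.MD.f d c₀)^[k + 1] c₀)) ^ (d - 1)) :=
      Pool.Agent.N772.ST.deriv_it d c₀ ((Pool.Agent.TH279.MD.f d c₀)^[k + 1] c₀) (L - k)
    have h4 : Finset.Icc (k + 1) L = Finset.Ico (k + 1) (L + 1) := by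
      ext x
      simp only [Finset.mem_Icc, Finset.mem_Ico]
      omega
    rw [h4, Finset.prod_Ico_eq_prod_range, show L + 1 - (k + 1) = L - k by omega] at hmu
    rw [h3]
    refine hmu.trans_le (le_of_eq ?_)
    congr 1
    refine Finset.prod_congr rfl fun l _ => ?_
    unfold Pool.Agent.TH279.MD.vv
    rw [add_comm (k + 1) l, Function.iterate_add_apply]
  obtain ⟨h0, -, h4⟩ := Pool.Agent.H206.lyap_preper hd (b := c₀) (K₀ := k + 1) (n := L - k)
    (by omega) rfl hp hder
  exact ⟨_, h0, h4⟩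

theorem area_mono {d : ℕ} (hd : 2 ≤ d) (c₀ : ℂ) {r r' : ℝ} (h : r ≤ r') :
    area (multibrotSet d) c₀ r ≤ area (multibrotSet d) c₀ r' := VM_mono hd c₀ h

/-- the properties of all small scales -/
theorem core {d M : ℕ} (hd : 2 ≤ d) {χ : ℝ} {c₀ : ℂ} (hL : Pool.Agent.Y298.CA.Lyap d χ c₀)
    (hue : UEx d M c₀) {ε : ℝ} (hε : 0 < ε) : ∃ r₀ : ℝ, 0 < r₀ ∧ ∀ r : ℝ, 0 < r → r < r₀ →
      Til d ε c₀ r (VM d c₀ r) ∧
      volume.real ((multibrotSet d \ HH d) ∩ closedBall c₀ r) ≤
        (thet d + ε) * VM d c₀ ((1 + ε) * r) := by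
  obtain ⟨a, C, r₀, ha, hC, hr₀, H⟩ := area_order hd hL hue
  obtain ⟨E, hE'⟩ : ∃ E : ℝ, E = 2 * (d : ℝ) / (d - 1) := ⟨_, rfl⟩
  rw [← hE'] at H
  obtain ⟨ε', hε'⟩ : ∃ ε' : ℝ, ε' = min (min 1 ε) (ε * a / (C * 2 ^ E)) := ⟨_, rfl⟩
  have hε'0 : 0 < ε' := by rw [hε']; positivity
  have hε'1 : ε' ≤ 1 := by rw [hε']; exact (min_le_left _ _).trans (min_le_left _ _)
  have hε'ε : ε' ≤ ε := by rw [hε']; exact (min_le_left _ _).trans (min_le_right _ _)
  have hε'a : ε' * (C * 2 ^ E) ≤ ε * a := by
    have h1 : ε' ≤ ε * a / (C * 2 ^ E) := by rw [hε']; exact min_le_right _ _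
    rwa [le_div_iff₀ (by positivity)] at h1
  obtain ⟨r₁, hr₁, H₁⟩ := all_scales hd hL hue hε'0
  refine ⟨min r₁ (r₀ / 2), by positivity, fun r hr hr0 => ?_⟩
  have hrr₁ : r < r₁ := hr0.trans_le (min_le_left _ _)
  have hrr₀ : 2 * r < r₀ := by
    have := hr0.trans_le (min_le_right _ _)
    linarith
  obtain ⟨h1, h2⟩ := H₁ r hr hrr₁
  have hth0 : 0 ≤ thet d := div_nonneg (by linarith [area_le hd]) (multi_pos hd).le
  have hmono : VM d c₀ ((1 + ε') * r) ≤ VM d c₀ ((1 + ε) * r) := by
    apply VM_mono hd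
    gcongr
  constructor
  · have hV : ε' * VM d c₀ ((1 + ε') * r) ≤ ε * VM d c₀ r := by
      have h3 : VM d c₀ ((1 + ε') * r) ≤ C * (2 * r) ^ E := by
        refine (VM_mono hd c₀ ?_).trans (H (2 * r) (by positivity) hrr₀).2
        gcongr
        linarith
      have h4 := (H r hr (by linarith)).1
      have h5 : volume.real (HH d ∩ closedBall c₀ r) ≤ VM d c₀ r :=
        measureReal_mono (inter_subset_inter_left _ (HH_sub hd))
          (ne_top_of_le_ne_top (multi_fin hd) (measure_mono inter_subset_left))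
      calc ε' * VM d c₀ ((1 + ε') * r) ≤ ε' * (C * (2 * r) ^ E) := by gcongr
        _ = ε' * (C * 2 ^ E) * r ^ E := by
          rw [Real.mul_rpow (by norm_num) hr.le]
          ring
        _ ≤ ε * a * r ^ E := by gcongr
        _ = ε * (a * r ^ E) := by ring
        _ ≤ ε * VM d c₀ r := by
          have := h4.trans h5
          gcongr
    exact Til_mono hd hr hε'0 hε'ε hV h1
  · refine h2.trans ?_
    have h3 : 0 ≤ VM d c₀ ((1 + ε') * r) := measureReal_nonneg
    calc (thet d + ε') * VM d c₀ ((1 + ε') * r)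
        ≤ (thet d + ε) * VM d c₀ ((1 + ε') * r) := by gcongr
      _ ≤ (thet d + ε) * VM d c₀ ((1 + ε) * r) := by gcongr

/-- small copies fill the disc -/
theorem filled_of {d : ℕ} (hd : 2 ≤ d) {ε : ℝ} {c₀ : ℂ} {r : ℝ}
    (h : Til d ε c₀ r (VM d c₀ r)) : Filled d ε c₀ r := by
  obtain ⟨u, l, g1, g2, g3⟩ := h
  refine ⟨u, l, fun c hc => ?_, fun c hc c' hc' hne => g2 hc hc' hne, ?_⟩
  · obtain ⟨⟨p, m, a1, a2, a3, a4, a5⟩, a6, a7, a8⟩ := g1 c hc
    refine ⟨⟨p, a1, exact_period hd a1 a3 ?_, m, a2, a4, a6, a5⟩, a7, a8⟩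
    intro h0
    rw [h0, mul_zero] at a4
    exact zero_ne_one a4
  · have e : {b | b ∈ multibrotSet d ∧ ∀ c ∈ u, ∀ κ ∈ multibrotSet d,
        ε * ‖l c‖ ≤ ‖b - (c + l c * κ)‖} ∩ closedBall c₀ r =
        {b | b ∈ closedBall c₀ r ∧ b ∈ multibrotSet d ∧ ∀ c ∈ u, ∀ κ ∈ multibrotSet d,
          ε * ‖l c‖ ≤ ‖b - (c + l c * κ)‖} := by
      ext b
      simp only [mem_inter_iff, mem_ofPred_eq]
      tauto
    unfold area
    rw [e]
    exact g3

theorem main {d : ℕ} (hd : 2 ≤ d) {c₀ : ℂ} (h : NonRecurrent d c₀) :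
    Local d c₀ ∧ ExactOrder d c₀ := by
  obtain ⟨hM, ⟨χ, hχ0, hχ⟩, s, hs, hz⟩ := h
  have hL : Pool.Agent.Y298.CA.Lyap d χ c₀ := ⟨hχ0, hM, hχ⟩
  obtain ⟨M, hE⟩ := uex_of_nonrec hd hL hs (fun j => by
    have h1 := hz (j + 1) (by omega)
    rwa [crit_succ hd] at h1)
  have hue : UEx d M c₀ := uex_of hE
  constructor
  · intro ε hε
    obtain ⟨ε₁, hε₁, HL⟩ := til_low hd hε
    obtain ⟨e, he⟩ : ∃ e : ℝ, e = min ε ε₁ := ⟨_, rfl⟩
    have he0 : 0 < e := by rw [he]; positivity
    have heε : e ≤ ε := by rw [he]; exact min_le_left _ _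
    have heε₁ : e ≤ ε₁ := by rw [he]; exact min_le_right _ _
    obtain ⟨r₀, hr₀, H⟩ := core hd hL hue he0
    refine ⟨r₀, hr₀, fun r hr hrr₀ => ?_⟩
    obtain ⟨h1, h2⟩ := H r hr hrr₀
    have hth0 : 0 ≤ thet d := div_nonneg (by linarith [area_le hd]) (multi_pos hd).le
    have hrad : (1 + e) * r ≤ (1 + ε) * r := by gcongr
    have hV0 : 0 ≤ VM d c₀ r := measureReal_nonneg
    refine ⟨?_, ?_, ?_⟩
    · rw [← thet_eq hd]
      refine h2.trans ?_
      have h3 : 0 ≤ VM d c₀ ((1 + e) * r) := measureReal_nonneg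
      calc (thet d + e) * VM d c₀ ((1 + e) * r)
          ≤ (thet d + ε) * VM d c₀ ((1 + e) * r) := by gcongr
        _ ≤ (thet d + ε) * VM d c₀ ((1 + ε) * r) := by
          have := VM_mono hd c₀ hrad
          gcongr
    · rw [← thet_eq hd]
      refine (HL e c₀ r he0 heε₁ h1).trans (measureReal_mono ?_ ?_)
      · exact inter_subset_inter_right _ (closedBall_subset_closedBall hrad)
      · exact ne_top_of_le_ne_top (multi_fin hd)
          (measure_mono (inter_subset_left.trans (HH_sub hd)))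
    · refine filled_of hd (Til_mono hd hr he0 heε ?_ h1)
      gcongr
  · obtain ⟨a, C, r₀, ha, hC, hr₀, H⟩ := area_order hd hL hue
    exact ⟨a, C, r₀, ha, hC, hr₀, fun r h1 h2 => H r h1 h2⟩

/-- **Theorem.** Let `d ≥ 2`. Every Misiurewicz parameter has a positive Lyapunov exponent and a
non-recurrent critical orbit. Let `c₀` be a parameter of the Multibrot set of degree `d` with a
positive Lyapunov exponent and a non-recurrent critical orbit. For every `ε > 0` and all sufficiently
small `r > 0`, the hyperbolic parameters have in the disc of centre `c₀` and radius `r` at least their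
global proportion in the Multibrot set, up to `ε`, and the Multibrot set is filled with small copies,
up to the proportion `ε` of its area. The areas of the Multibrot set and of its hyperbolic part in
this disc have the exact order `r ^ (2 d / (d - 1))`. The proportion of the non-hyperbolic parameters
in the Multibrot set is at most `1 / 2`, and at most `0.443` in degree 2. -/
theorem result (d : ℕ) (hd : 2 ≤ d) :
    (∀ c₀ : ℂ, Misiurewicz d c₀ → NonRecurrent d c₀) ∧
    (∀ c₀ : ℂ, NonRecurrent d c₀ → Local d c₀ ∧ ExactOrder d c₀) ∧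
    proportion d ≤ 1 / 2 ∧ proportion 2 ≤ 443 / 1000 :=
  ⟨fun _ h => nonrecurrent_of_misiurewicz hd h, fun _ h => main hd h,
    (thet_eq hd).symm.trans_le (prop_multi hd), (thet_eq le_rfl).symm.trans_le prop_mandel⟩

end Pool.Agent.Results.MP_af9036_an.MisiurewiczProportion
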